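import Pool.Agent.helper25.PP.Spec
import Pool.Agent.helper56.CT.Fin2

/-!
# Project pp, module FV1
-/

set_option autoImplicit false

namespace PP

open Finset SimpleGraph CT

theorem FV1_congr {V : Type} [Fintype V] [DecidableEq V] (H : SimpleGraph V) (r s : ℤ)
    (h : C2Is H (ZMod 2) r) (hrs : (2 : ℤ) ∣ s - r) : C2Is H (ZMod 2) s := by
  obtain ⟨k, hk, hr⟩ := h
  have h3 : Nat.card (ZMod 2) = 2 := by simp
  refine ⟨k, hk, ?_⟩
  rw [h3] at hr ⊢
  have h4 : r ≡ s [ZMOD ((2 : ℕ) : ℤ)] := by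
    rw [Int.modEq_iff_dvd]
    exact_mod_cast hrs
  exact hr.trans h4

theorem FV1_arith {X : ℕ} {z : ℤ} (h1 : (32 : ℤ) ∣ 4 * (X : ℤ) - 16 * z) :
    ∃ k : ℕ, X = 4 * k ∧ (2 : ℤ) ∣ z - (k : ℤ) := by
  have h5 : 4 ∣ X := by omega
  obtain ⟨k, rfl⟩ := h5
  refine ⟨k, rfl, ?_⟩
  push_cast at h1
  omega

theorem FV1_key {V : Type} [Fintype V] [DecidableEq V] (G : SimpleGraph V)
    (hG : FourRegular G) (hn : 6 ≤ Fintype.card V) (e : V × Fin 4 → V × Fin 4) (he : Rep G e)
    (L : List V) (hL : L.Nodup) (hLs : L.toFinset = univ) :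
    ∃ z : ℤ, Z (-4) L e = 16 * z ∧ ∀ v, C2Is (decompletion G v) (ZMod 2) z := by
  classical
  obtain ⟨h0, h1, h2, h3⟩ := he
  have hG' : G.IsRegularOfDegree 4 := by
    intro u
    rw [← hG u, Nat.card_eq_fintype_card, ← SimpleGraph.card_neighborSet_eq_degree]
    rfl
  have hlen : L.length = Fintype.card V := by
    rw [← List.toFinset_card_of_nodup hL, hLs, Finset.card_univ]
  have h10 := fJC1 V L e hL (by omega) (by rw [hLs]; exact h0)
  obtain ⟨z, hz⟩ := h10
  refine ⟨z, hz, fun v => ?_⟩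
  have h4 : (univ.erase v).toList.Nodup := Finset.nodup_toList _
  have h5 : (univ.erase v).toList.toFinset = univ.erase v := Finset.toList_toFinset _
  have h6 := core fE1 fE2 fE4 fB5 fJC3 G v hG' hn (card_edges V G v hG' hn) e h0 h1 h2 h3
    (univ.erase v).toList h4 h5
  have h7 : L.Perm ((univ.erase v).toList ++ [v]) := by
    apply List.perm_of_nodup_nodup_toFinset_eq hL
    · rw [List.nodup_append]
      refine ⟨h4, by simp, ?_⟩
      intro a ha b hb
      rw [Finset.mem_toList, mem_erase] at ha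
      simp only [List.mem_singleton] at hb
      rw [hb]; exact ha.1
    · rw [hLs, List.toFinset_append, h5]
      ext x
      simp only [mem_univ, mem_union, mem_erase, List.mem_toFinset, List.mem_singleton, and_true,
        true_iff]
      exact ne_or_eq x v
  have h8 := fJZ2 V (-4) L ((univ.erase v).toList ++ [v]) e h7 hL h0.1 (by
    intro u _ i
    rw [h0.2]
    simp [dts])
  rw [← h8, hz] at h6
  obtain ⟨k, hk, hk2⟩ := FV1_arith h6
  have hc : Nat.card (ZMod 2) = 2 := by simp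
  refine ⟨k, ?_, ?_⟩
  · rw [hk, hc]
    norm_num
  · rw [hc, Int.modEq_iff_dvd]
    exact_mod_cast hk2

theorem FV1 : FV1_stmt := by
  intro V _ _ G hG hn
  classical
  have hG' : G.IsRegularOfDegree 4 := by
    intro u
    rw [← hG u, Nat.card_eq_fintype_card, ← SimpleGraph.card_neighborSet_eq_degree]
    rfl
  obtain ⟨e0, he0⟩ := E3 V G hG'
  obtain ⟨z, -, hz⟩ := FV1_key G hG hn e0 he0 univ.toList (Finset.nodup_toList _)
    (Finset.toList_toFinset _)
  have hne : Nonempty V := Fintype.card_pos_iff.1 (by omega)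
  obtain ⟨v0⟩ := hne
  have hb : ∀ v, C2Is (decompletion G v) (ZMod 2) (bit G) := by
    intro v
    by_cases hv : ∃ v, C2Is (decompletion G v) (ZMod 2) 1
    · have h1 : bit G = 1 := by
        unfold bit
        exact if_pos hv
      obtain ⟨v1, hv1⟩ := hv
      have h2 := c2_unique _ _ _ (hz v1) hv1
      rw [h1]
      exact FV1_congr _ _ _ (hz v) (by exact_mod_cast h2)
    · have h1 : bit G = 0 := by
        unfold bit
        exact if_neg hv
      rw [h1]
      rcases Int.even_or_odd z with h2 | h2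
      · refine FV1_congr _ _ _ (hz v) ?_
        obtain ⟨m, hm⟩ := h2
        push_cast
        omega
      · exfalso
        refine hv ⟨v, FV1_congr _ _ _ (hz v) ?_⟩
        obtain ⟨m, hm⟩ := h2
        omega
  refine ⟨hb, ?_⟩
  intro e L he hL hLs
  obtain ⟨z', hz1, hz2⟩ := FV1_key G hG hn e he L hL hLs
  exact ⟨z', hz1, c2_unique _ _ _ (hb v0) (hz2 v0)⟩

end PP
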