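import Pool.Agent.helper36.PP.SpecB
import Pool.Agent.helper11.MP.PHI

/-!
Module pp:PHI of project pp (MP_70a088_an): the change of coordinate.
-/

set_option autoImplicit false

open Complex Metric Set Filter Topology MeasureTheory MPS

noncomputable section

namespace PPS

theorem PHI (hU : P1U_stmt) (hT : PT1_stmt) : PHI_stmt := by
  intro n k _ f b g ψ ra R ε δ A G Q hH hQ hε
  obtain ⟨H, hHd, hH0, hHt⟩ := (hU n k f b g ψ ra R ε δ A G Q hH).1 Q le_rfl
  have hpt := hT n k f b g ψ ra R ε δ A G Q hH Q hQ le_rfl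
  have hε0 : 0 < ε := by
    have h1 := hH.su.hE
    have h2 := hH.su.rho1
    have h3 : 0 < Real.log ‖rho f b‖ := Real.log_pos h2
    have h4 : 0 ≤ ∫ z in ball (0 : ℂ) R, ‖er f b g z‖ :=
      integral_nonneg (fun z => norm_nonneg _)
    have h5 := Real.pi_pos
    have h6 : 0 < 2 * Real.pi * Real.log ‖rho f b‖ := by positivity
    linarith
  have hHP : ∀ (w : ℂ) (t : ℝ), 0 < t → w.re = -(A Q + t) → w ∈ HP (A Q) := by
    intro w t ht hw
    show w.re < -A Q
    rw [hw]
    linarith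
  obtain ⟨P, hP1, hP2, hP3, hP4⟩ := MPS.PHI_core H (A Q) ε δ hε0 hH.d0 hH.d1 hε hHd hH0
    (by
      intro w t ht0 ht1 hw
      rw [← hHt w (hHP w t ht0 hw)]
      exact (hpt w t ht0 hw).2.2.trans ((hpt w t ht0 hw).1 ht1))
    (by
      intro w t ht1 hw
      have ht0 : 0 < t := by linarith
      rw [← hHt w (hHP w t ht0 hw)]
      exact (hpt w t ht0 hw).2.2.trans ((hpt w t ht0 hw).2.1 ht1))
  refine ⟨P, hP1, hP2, hP3, ?_⟩
  intro w hw
  have hw' : w ∈ HP (A Q) := by
    show w.re < -A Q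
    have h1 : w.re < -(A Q + δ / 8) := hw
    have h2 := hH.d0
    linarith
  rw [hHt w hw']
  exact hP4 w hw

end PPS
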